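import Pool.Agent.helper26.EC.SpecE

/-!
# MP_5628fe_nt, row ec:CPD
-/

set_option autoImplicit false

namespace Pool.Agent.EC

open Finset ArithmeticFunction

/-- The subsets of `P` disjoint from `S` are the subsets of `P \ S`. -/
theorem CPD_pw (P S : Finset ℕ) :
    P.powerset.filter (fun D => Disjoint D S) = (P \ S).powerset := by
  ext D
  simp only [Finset.mem_filter, Finset.mem_powerset]
  constructor
  · rintro ⟨h1, h2⟩
    intro x hx
    exact Finset.mem_sdiff.2 ⟨h1 hx, fun h => Finset.disjoint_left.1 h2 hx h⟩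
  · intro h
    exact ⟨fun x hx => (Finset.mem_sdiff.1 (h hx)).1,
      Finset.disjoint_left.2 fun x hx => (Finset.mem_sdiff.1 (h hx)).2⟩

theorem CPD (h1 : MTE_stmt) : CPD_stmt := by
  intro P S g ξ hg hS hF
  rw [CPD_pw P S, h1 (P \ S) g ξ, h1 P g ξ]
  unfold Eg
  rw [Finset.mul_sum]
  have hsub : (P \ S).powerset ⊆ P.powerset := Finset.powerset_mono.2 Finset.sdiff_subset
  have key : ∀ A ∈ (P \ S).powerset,
      (∏ p ∈ S, (1 - g p)) * ((∏ p ∈ A, g p) * (∏ p ∈ (P \ S) \ A, (1 - g p)) *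
        ∑ D ∈ A.powerset, ξ D) =
      (∏ p ∈ A, g p) * (∏ p ∈ P \ A, (1 - g p)) * ∑ D ∈ A.powerset, ξ D := by
    intro A hA
    rw [Finset.mem_powerset] at hA
    have e : P \ A = S ∪ ((P \ S) \ A) := by
      ext x
      simp only [Finset.mem_sdiff, Finset.mem_union]
      constructor
      · rintro ⟨a, b⟩
        by_cases h : x ∈ S
        · exact Or.inl h
        · exact Or.inr ⟨⟨a, h⟩, b⟩
      · rintro (h | ⟨⟨a, _⟩, b⟩)
        · exact ⟨hS h, fun hx => (Finset.mem_sdiff.1 (hA hx)).2 h⟩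
        · exact ⟨a, b⟩
    have hd : Disjoint S ((P \ S) \ A) :=
      Finset.disjoint_left.2 fun x hx h =>
        (Finset.mem_sdiff.1 (Finset.mem_sdiff.1 h).1).2 hx
    rw [e, Finset.prod_union hd]
    ring
  rw [Finset.sum_congr rfl key]
  refine Finset.sum_le_sum_of_subset_of_nonneg hsub fun A hA _ => ?_
  rw [Finset.mem_powerset] at hA
  refine mul_nonneg (mul_nonneg ?_ ?_) (hF A hA)
  · exact Finset.prod_nonneg fun p hp => (hg p (hA hp)).1
  · refine Finset.prod_nonneg fun p hp => ?_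
    have := (hg p (Finset.mem_sdiff.1 hp).1).2
    linarith

end Pool.Agent.EC
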